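import Mathlib
set_option autoImplicit false
open Filter Topology
namespace Pool.Agent.H83.CF

/-- complete quotients of the regular continued fraction of x -/
noncomputable def cq (x : ℝ) : ℕ → ℝ
  | 0 => x
  | (k + 1) => 1 / (cq x k - ⌊cq x k⌋)

/-- partial quotients of the regular continued fraction of x -/
noncomputable def pq (x : ℝ) (k : ℕ) : ℤ := ⌊cq x k⌋

/-- length of the minimal period of the partial quotients a_1, a_2, ... of sqrt p -/
noncomputable def T (p : ℕ) : ℕ :=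
  sInf {t : ℕ | 1 ≤ t ∧ ∀ k, 1 ≤ k → pq (√(p : ℝ)) (k + t) = pq (√(p : ℝ)) k}

open Classical in
/-- the number of the first N primes with period length i -/
noncomputable def W (i N : ℕ) : ℕ :=
  ((Finset.range N).filter (fun m => T (Nat.nth Nat.Prime m) = i)).card

theorem cq_add (x : ℝ) (j k : ℕ) : cq (cq x j) k = cq x (j + k) := by
  induction k with
  | zero => rfl
  | succ k ih =>
    show 1 / (cq (cq x j) k - ⌊cq (cq x j) k⌋) = 1 / (cq x (j + k) - ⌊cq x (j + k)⌋)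
    rw [ih]

theorem irr_next (x : ℝ) (hx : Irrational x) : Irrational (1 / (x - ⌊x⌋)) := by
  rw [one_div, irrational_inv_iff]
  exact hx.sub_intCast _

theorem irr_cq (x : ℝ) (hx : Irrational x) (k : ℕ) : Irrational (cq x k) := by
  induction k with
  | zero => exact hx
  | succ k ih => exact irr_next _ ih

theorem fract_pos (x : ℝ) (hx : Irrational x) : 0 < x - ⌊x⌋ := by
  have h1 : (⌊x⌋ : ℝ) ≤ x := Int.floor_le x
  have h2 : (⌊x⌋ : ℝ) ≠ x := fun h => hx ⟨(⌊x⌋ : ℚ), by push_cast; exact h⟩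
  have h3 : (⌊x⌋ : ℝ) < x := lt_of_le_of_ne h1 h2
  linarith

theorem fract_lt (x : ℝ) : x - ⌊x⌋ < 1 := by
  linarith [Int.lt_floor_add_one x]

theorem one_lt_next (x : ℝ) (hx : Irrational x) : 1 < 1 / (x - ⌊x⌋) := by
  rw [one_lt_div (fract_pos x hx)]
  exact fract_lt x

theorem one_lt_cq (x : ℝ) (hx : Irrational x) (k : ℕ) : 1 < cq x (k + 1) :=
  one_lt_next _ (irr_cq x hx k)

theorem cq_eq (x : ℝ) (hx : Irrational x) (k : ℕ) : cq x k = pq x k + 1 / cq x (k + 1) := by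
  have h := fract_pos _ (irr_cq x hx k)
  show cq x k = ⌊cq x k⌋ + 1 / (1 / (cq x k - ⌊cq x k⌋))
  rw [one_div_one_div]
  ring

theorem close (m : ℕ) : ∀ x y : ℝ, Irrational x → Irrational y →
    (∀ k, pq x k = pq y k) → |x - y| ≤ 1 / 4 ^ m := by
  induction m with
  | zero =>
    intro x y _ _ h
    have h0 : ⌊x⌋ = ⌊y⌋ := h 0
    have h1 := fract_lt x
    have h2 := fract_lt y
    have h3 : (⌊x⌋ : ℝ) ≤ x := Int.floor_le x
    have h4 : (⌊y⌋ : ℝ) ≤ y := Int.floor_le y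
    rw [h0] at h1 h3
    rw [pow_zero, div_one, abs_le]
    constructor <;> linarith
  | succ m ih =>
    intro x y hx hy h
    have hx1 := cq_eq x hx 0
    have hy1 := cq_eq y hy 0
    have hx2 := cq_eq x hx 1
    have hy2 := cq_eq y hy 1
    have e0 : (pq x 0 : ℝ) = pq y 0 := by rw [h 0]
    have e1 : (pq x 1 : ℝ) = pq y 1 := by rw [h 1]
    have hX1 := one_lt_cq x hx 0
    have hX2 := one_lt_cq x hx 1
    have hY1 := one_lt_cq y hy 0
    have hY2 := one_lt_cq y hy 1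
    have hI := ih (cq x 2) (cq y 2) (irr_cq x hx 2) (irr_cq y hy 2) (by
      intro k
      unfold pq
      rw [cq_add, cq_add]
      exact h (2 + k))
    have hg : (1 : ℝ) ≤ pq y 1 := by
      have : (1 : ℤ) ≤ pq y 1 := by
        unfold pq
        rw [Int.le_floor]
        push_cast
        exact hY1.le
      exact_mod_cast this
    simp only [zero_add, Nat.reduceAdd] at hx1 hy1 hx2 hy2 hX1 hX2 hY1 hY2
    have hx0 : cq x 0 = x := rfl
    have hy0 : cq y 0 = y := rfl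
    rw [hx0] at hx1
    rw [hy0] at hy1
    generalize cq x 1 = X1 at *
    generalize cq x 2 = X2 at *
    generalize cq y 1 = Y1 at *
    generalize cq y 2 = Y2 at *
    have hXX : 2 ≤ X1 * X2 := by
      have : X1 * X2 = pq x 1 * X2 + 1 := by
        rw [hx2]; field_simp
      rw [this, e1]
      nlinarith
    have hYY : 2 ≤ Y1 * Y2 := by
      have : Y1 * Y2 = pq y 1 * Y2 + 1 := by
        rw [hy2]; field_simp
      rw [this]
      nlinarith
    have key : x - y = (X2 - Y2) / ((X1 * X2) * (Y1 * Y2)) := by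
      have h1 : x - y = 1 / X1 - 1 / Y1 := by rw [hx1, hy1, e0]; ring
      have h2 : Y1 - X1 = 1 / Y2 - 1 / X2 := by rw [hx2, hy2, e1]; ring
      have h3 : x - y = (Y1 - X1) / (X1 * Y1) := by
        rw [h1]; field_simp
      rw [h3, h2]
      field_simp
    rw [key, abs_div, abs_of_pos (show 0 < (X1 * X2) * (Y1 * Y2) by positivity)]
    rw [div_le_iff₀ (by positivity)]
    have h4 : (4 : ℝ) ≤ (X1 * X2) * (Y1 * Y2) := by nlinarith
    calc |X2 - Y2| ≤ 1 / 4 ^ m := hI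
      _ = 1 / 4 ^ (m + 1) * 4 := by field_simp; ring
      _ ≤ _ := mul_le_mul_of_nonneg_left h4 (by positivity)

theorem cf_unique (x y : ℝ) (hx : Irrational x) (hy : Irrational y)
    (h : ∀ k, pq x k = pq y k) : x = y := by
  have h1 : ∀ m : ℕ, |x - y| ≤ (1 / 4 : ℝ) ^ m := by
    intro m
    have := close m x y hx hy h
    rwa [one_div_pow]
  have h2 : |x - y| ≤ 0 := ge_of_tendsto'
    (tendsto_pow_atTop_nhds_zero_of_lt_one (by norm_num) (by norm_num)) h1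
  have h3 : x - y = 0 := abs_nonpos_iff.1 h2
  linarith

theorem pair_eq (s : ℝ) (hs : Irrational s) (P Q P' Q' : ℤ) (hQ : 0 < Q) (hQ' : 0 < Q')
    (h : ((P : ℝ) + s) / Q = ((P' : ℝ) + s) / Q') : Q = Q' ∧ P = P' := by
  have hQr : (0 : ℝ) < Q := by exact_mod_cast hQ
  have hQr' : (0 : ℝ) < Q' := by exact_mod_cast hQ'
  rw [div_eq_div_iff hQr.ne' hQr'.ne'] at h
  have h1 : s * ((Q' : ℝ) - Q) = P' * Q - P * Q' := by linarith
  by_cases hq : Q = Q'
  · refine ⟨hq, ?_⟩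
    rw [hq, sub_self, mul_zero] at h1
    have h2 : ((P' : ℝ) - P) * Q' = 0 := by linarith
    rcases mul_eq_zero.1 h2 with h3 | h3
    · have : (P : ℝ) = P' := by linarith
      exact_mod_cast this
    · exact absurd h3 hQr'.ne'
  · exfalso
    have hne : ((Q' : ℝ) - Q) ≠ 0 := by
      intro h0
      exact hq (by exact_mod_cast (sub_eq_zero.1 h0).symm)
    refine hs ⟨((P' * Q - P * Q' : ℤ) : ℚ) / ((Q' - Q : ℤ) : ℚ), ?_⟩
    push_cast
    rw [div_eq_iff hne]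
    linarith

theorem int_close (P a : ℤ) (s : ℝ) (h1 : (P : ℝ) < s) (h2 : s - P < 1) (h3 : (a : ℝ) < s)
    (h4 : s - a < 1) : P = a := by
  have h5 : (P : ℝ) < a + 1 := by linarith
  have h6 : (a : ℝ) < P + 1 := by linarith
  have h7 : P < a + 1 := by exact_mod_cast h5
  have h8 : a < P + 1 := by exact_mod_cast h6
  omega

theorem step (p : ℕ) (s : ℝ) (hs : s ^ 2 = p) (P Q Q0 : ℤ) (hQ : 0 < Q)
    (hdiv : Q * Q0 = p - P ^ 2) (h1 : (P : ℝ) < s) (h2 : s - P < Q) (h3 : (Q : ℝ) < P + s)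
    (x : ℝ) (hx : x = (P + s) / Q) (hirr : Irrational x) :
    ∃ P' Q' : ℤ, P' = ⌊x⌋ * Q - P ∧ Q * Q' = p - P' ^ 2 ∧ 0 < Q' ∧ (P' : ℝ) < s ∧
      s - P' < Q ∧ s - P' < Q' ∧ (Q' : ℝ) < P' + s ∧ 1 / (x - ⌊x⌋) = (P' + s) / Q' := by
  have hQr : (0 : ℝ) < Q := by exact_mod_cast hQ
  have hf0 := fract_pos x hirr
  have hf1 := fract_lt x
  have hx1 : 1 < x := by rw [hx, lt_div_iff₀ hQr]; linarith
  have hfl : (1 : ℤ) ≤ ⌊x⌋ := by rw [Int.le_floor]; push_cast; exact hx1.le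
  have hflr : (1 : ℝ) ≤ (⌊x⌋ : ℝ) := by exact_mod_cast hfl
  generalize hf : ⌊x⌋ = f at *
  have hxQ : x * Q = P + s := by rw [hx]; field_simp
  set P' : ℤ := f * Q - P with hP'
  have hP'r : (P' : ℝ) = f * Q - P := by rw [hP']; push_cast; ring
  have e1 : (x - f) * Q = s - P' := by rw [hP'r]; linarith
  have g1 : (P' : ℝ) < s := by nlinarith
  have g2 : s - P' < Q := by nlinarith
  have g3 : (Q : ℝ) < s + P' := by rw [hP'r]; nlinarith
  have hQ'e : Q * (Q0 - f ^ 2 * Q + 2 * f * P) = p - P' ^ 2 := by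
    rw [hP']; linear_combination hdiv
  set Q' : ℤ := Q0 - f ^ 2 * Q + 2 * f * P with hQ'
  have hprod : (Q : ℝ) * Q' = (s - P') * (s + P') := by
    have : (Q : ℝ) * Q' = p - (P' : ℝ) ^ 2 := by exact_mod_cast hQ'e
    rw [this, ← hs]; ring
  have hQ'r : (0 : ℝ) < Q' := by
    have : 0 < (Q : ℝ) * Q' := by rw [hprod]; exact mul_pos (by linarith) (by linarith)
    exact (pos_iff_pos_of_mul_pos this).1 hQr
  refine ⟨P', Q', rfl, hQ'e, by exact_mod_cast hQ'r, g1, g2, ?_, ?_, ?_⟩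
  · have : (s - P') * Q < Q' * Q := by nlinarith
    exact lt_of_mul_lt_mul_right this hQr.le
  · have : (Q' : ℝ) * Q < (P' + s) * Q := by nlinarith
    exact lt_of_mul_lt_mul_right this hQr.le
  · rw [div_eq_div_iff hf0.ne' hQ'r.ne', one_mul]
    have : (Q' : ℝ) * Q = (P' + s) * (x - f) * Q := by
      have : (P' + s) * (x - f) * Q = (P' + s) * ((x - f) * Q) := by ring
      rw [this, e1]; linarith
    exact mul_right_cancel₀ hQr.ne' this

theorem init (p : ℕ) (hp : p.Prime) : ∃ a c : ℤ, 0 < a ∧ 0 < c ∧ c * 1 = p - a ^ 2 ∧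
    (a : ℝ) < √(p : ℝ) ∧ √(p : ℝ) - a < 1 ∧ (c : ℝ) < a + √(p : ℝ) ∧
    cq (√(p : ℝ)) 1 = (a + √(p : ℝ)) / c ∧ pq (√(p : ℝ)) 0 = a := by
  have hs : (√(p : ℝ)) ^ 2 = p := Real.sq_sqrt (by positivity)
  have hirr : Irrational (√(p : ℝ)) := hp.irrational_sqrt
  set s := √(p : ℝ) with hsdef
  have hs1 : 1 < s := by
    rw [hsdef]
    rw [Real.lt_sqrt (by norm_num)]
    have : (1 : ℝ) < p := by exact_mod_cast hp.one_lt
    linarith
  have h0 := fract_pos s hirr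
  have h1 := fract_lt s
  have ha : (1 : ℤ) ≤ ⌊s⌋ := by rw [Int.le_floor]; push_cast; exact hs1.le
  have har : (1 : ℝ) ≤ (⌊s⌋ : ℝ) := by exact_mod_cast ha
  have hcr : (((p : ℤ) - ⌊s⌋ ^ 2 : ℤ) : ℝ) = (s - ⌊s⌋) * (s + ⌊s⌋) := by
    push_cast
    rw [← hs]; ring
  have hcpos : (0 : ℝ) < (((p : ℤ) - ⌊s⌋ ^ 2 : ℤ) : ℝ) := by
    rw [hcr]; exact mul_pos h0 (by linarith)
  refine ⟨⌊s⌋, (p : ℤ) - ⌊s⌋ ^ 2, by omega, by exact_mod_cast hcpos, by ring, by linarith, h1,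
    ?_, ?_, rfl⟩
  · rw [hcr]; nlinarith
  · show 1 / (s - ⌊s⌋) = _
    rw [div_eq_div_iff h0.ne' hcpos.ne', hcr]
    ring

theorem per_cq (s : ℝ) (hs : Irrational s) (t : ℕ)
    (h : ∀ k, 1 ≤ k → pq s (k + t) = pq s k) : cq s (1 + t) = cq s 1 := by
  refine cf_unique _ _ (irr_cq s hs _) (irr_cq s hs _) ?_
  intro k
  have h1 := h (1 + k) (by omega)
  unfold pq at h1 ⊢
  rw [cq_add, cq_add]
  rw [show 1 + t + k = 1 + k + t by ring]
  exact h1

theorem cq_per (s : ℝ) (t : ℕ) (h : cq s (1 + t) = cq s 1) :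
    ∀ k, 1 ≤ k → pq s (k + t) = pq s k := by
  intro k hk
  obtain ⟨j, rfl⟩ : ∃ j, k = 1 + j := ⟨k - 1, by omega⟩
  unfold pq
  rw [show 1 + j + t = (1 + t) + j by ring, ← cq_add s (1 + t) j, h, cq_add]

theorem T_mem (p t : ℕ) (ht : 1 ≤ t) (h : T p = t) :
    ∀ k, 1 ≤ k → pq (√(p : ℝ)) (k + t) = pq (√(p : ℝ)) k := by
  have hne : {t : ℕ | 1 ≤ t ∧ ∀ k, 1 ≤ k →
      pq (√(p : ℝ)) (k + t) = pq (√(p : ℝ)) k}.Nonempty := by
    by_contra hne
    rw [Set.not_nonempty_iff_eq_empty] at hne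
    unfold T at h
    rw [hne, Nat.sInf_empty] at h
    omega
  have := Nat.sInf_mem hne
  unfold T at h
  rw [h] at this
  exact this.2

theorem T_le (p t : ℕ) (ht : 1 ≤ t) (h : cq (√(p : ℝ)) (1 + t) = cq (√(p : ℝ)) 1) :
    T p ≤ t := Nat.sInf_le ⟨ht, cq_per _ t h⟩

theorem T_eq (p t : ℕ) (ht : 1 ≤ t) (h : cq (√(p : ℝ)) (1 + t) = cq (√(p : ℝ)) 1)
    (h' : ∀ t', 1 ≤ t' → t' < t → ∃ k, 1 ≤ k ∧ pq (√(p : ℝ)) (k + t') ≠ pq (√(p : ℝ)) k) :
    T p = t := by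
  refine le_antisymm (T_le p t ht h) ?_
  have hne : {t : ℕ | 1 ≤ t ∧ ∀ k, 1 ≤ k →
      pq (√(p : ℝ)) (k + t) = pq (√(p : ℝ)) k}.Nonempty := ⟨t, ht, cq_per _ t h⟩
  refine le_csInf hne ?_
  intro b hb
  by_contra hlt
  obtain ⟨k, hk, hk2⟩ := h' b hb.1 (by omega)
  exact hk2 (hb.2 k hk)

/-- a prime does not divide a small positive integer -/
theorem cop (p : ℕ) (hp : p.Prime) (s : ℝ) (hs : s ^ 2 = p) (hs0 : 0 < s) (r c Q : ℤ)
    (hr : 0 < r) (hrs : (r : ℝ) < s) (h : c * Q = p - r ^ 2) : IsCoprime Q r := by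
  have hrr : (0 : ℝ) < r := by exact_mod_cast hr
  have hr2 : (r : ℝ) ^ 2 < p := by rw [← hs]; exact pow_lt_pow_left₀ hrs hrr.le (by norm_num)
  have hr3 : r ^ 2 < p := by exact_mod_cast hr2
  have hrp : r < p := by nlinarith
  have hcp : IsCoprime (p : ℤ) r := by
    rw [Prime.coprime_iff_not_dvd (Nat.prime_iff_prime_int.1 hp)]
    intro hd
    have := Int.le_of_dvd hr hd
    omega
  obtain ⟨u, v, huv⟩ := hcp
  refine ⟨u * c, v + u * r, ?_⟩
  linear_combination huv + u * h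

theorem two_of (p : ℕ) (hp : p.Prime) (h : T p = 2) : ∃ n : ℕ, 1 ≤ n ∧ p = n ^ 2 + 2 := by
  have hirr : Irrational (√(p : ℝ)) := hp.irrational_sqrt
  have hs : (√(p : ℝ)) ^ 2 = p := Real.sq_sqrt (by positivity)
  have hs0 : 0 < √(p : ℝ) := Real.sqrt_pos.2 (by exact_mod_cast hp.pos)
  obtain ⟨a, c, ha, hc, hac, has, has1, hcs, hx1, -⟩ := init p hp
  have hper := per_cq _ hirr 2 (T_mem p 2 (by norm_num) h)
  set s := √(p : ℝ) with hsdef
  have hc1 : (1 : ℝ) ≤ c := by exact_mod_cast hc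
  obtain ⟨P2, Q2, hP2, hQ2, hQ2p, b1, b2, b3, b4, hx2⟩ := step p s hs a c 1 hc hac has
    (by linarith) hcs _ hx1 (irr_cq s hirr 1)
  obtain ⟨P3, Q3, hP3, hQ3, hQ3p, c1, c2, c3, c4, hx3⟩ := step p s hs P2 Q2 c hQ2p
    (by linarith) b1 b3 b4 _ hx2 (irr_next _ (irr_cq s hirr 1))
  have hx3' : cq s (1 + 2) = (P3 + s) / Q3 := hx3
  rw [hper, hx1] at hx3'
  obtain ⟨e1, e2⟩ := pair_eq s hirr a c P3 Q3 hc hQ3p hx3'
  subst e1 e2
  have hQ21 : Q2 = 1 := by
    have : Q2 * c = 1 * c := by rw [hQ3]; linarith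
    exact mul_right_cancel₀ hc.ne' this
  subst hQ21
  have hP2a : P2 = a := int_close P2 a s b1 (by exact_mod_cast b3) has has1
  subst hP2a
  have hdvd : c ∣ 2 * P2 := ⟨⌊cq s 1⌋, by linarith⟩
  have hcop := cop p hp s hs hs0 P2 1 c ha has (by linarith)
  have h2 : c ∣ 2 := hcop.dvd_of_dvd_mul_right hdvd
  have hle := Int.le_of_dvd (by norm_num) h2
  obtain ⟨n, hn⟩ : ∃ n : ℕ, P2 = n := ⟨P2.toNat, (Int.toNat_of_nonneg ha.le).symm⟩
  rcases (show c = 1 ∨ c = 2 by omega) with h3 | h3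
  · exfalso
    subst h3
    have hT := T_le p 1 le_rfl (by
      show 1 / (cq s 1 - ⌊cq s 1⌋) = cq s 1
      rw [hx2, hx1])
    omega
  · subst h3
    subst hn
    refine ⟨n, by omega, ?_⟩
    zify
    linarith

theorem four_of (p : ℕ) (hp : p.Prime) (h : T p = 4) : ∃ n : ℕ, 3 ≤ n ∧ p + 2 = n ^ 2 := by
  have hirr : Irrational (√(p : ℝ)) := hp.irrational_sqrt
  have hs : (√(p : ℝ)) ^ 2 = p := Real.sq_sqrt (by positivity)
  have hs0 : 0 < √(p : ℝ) := Real.sqrt_pos.2 (by exact_mod_cast hp.pos)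
  obtain ⟨a, c, ha, hc, hac, has, has1, hcs, hx1, -⟩ := init p hp
  have hper := per_cq _ hirr 4 (T_mem p 4 (by norm_num) h)
  set s := √(p : ℝ) with hsdef
  have hc1 : (1 : ℝ) ≤ c := by exact_mod_cast hc
  have i1 := irr_next _ (irr_cq s hirr 1)
  obtain ⟨P2, Q2, hP2, hQ2, hQ2p, b1, b2, b3, b4, hx2⟩ := step p s hs a c 1 hc hac has
    (by linarith) hcs _ hx1 (irr_cq s hirr 1)
  obtain ⟨P3, Q3, hP3, hQ3, hQ3p, c1, c2, c3, c4, hx3⟩ := step p s hs P2 Q2 c hQ2p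
    (by linarith) b1 b3 b4 (cq s 2) hx2 (irr_cq s hirr 2)
  obtain ⟨P4, Q4, hP4, hQ4, hQ4p, d1, d2, d3, d4, hx4⟩ := step p s hs P3 Q3 Q2 hQ3p
    (by linarith) c1 c3 c4 (cq s 3) hx3 (irr_cq s hirr 3)
  obtain ⟨P5, Q5, hP5, hQ5, hQ5p, f1, f2, f3, f4, hx5⟩ := step p s hs P4 Q4 Q3 hQ4p
    (by linarith) d1 d3 d4 (cq s 4) hx4 (irr_cq s hirr 4)
  have hx5' : cq s (1 + 4) = (P5 + s) / Q5 := hx5
  rw [hper, hx1] at hx5'
  obtain ⟨e1, e2⟩ := pair_eq s hirr a c P5 Q5 hc hQ5p hx5'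
  subst e1 e2
  have hQ41 : Q4 = 1 := by
    have : Q4 * c = 1 * c := by rw [hQ5]; linarith
    exact mul_right_cancel₀ hc.ne' this
  subst hQ41
  have hP4a : P4 = a := int_close P4 a s d1 (by exact_mod_cast d3) has has1
  subst hP4a
  have hQ3c : Q3 = c := by linarith
  subst hQ3c
  -- P3 = P2
  have hPP : P3 = P2 := by
    have h1 : P2 - P3 = (⌊cq s 1⌋ - ⌊cq s 3⌋) * Q3 := by linarith
    have h2 : ((P2 - P3 : ℤ) : ℝ) < Q3 := by push_cast; linarith
    have h3 : -(Q3 : ℝ) < ((P2 - P3 : ℤ) : ℝ) := by push_cast; linarith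
    have h2' : P2 - P3 < Q3 := by exact_mod_cast h2
    have h3' : -Q3 < P2 - P3 := by exact_mod_cast h3
    rw [h1] at h2' h3'
    have h4 : ⌊cq s 1⌋ - ⌊cq s 3⌋ < 1 := by nlinarith
    have h5 : -1 < ⌊cq s 1⌋ - ⌊cq s 3⌋ := by nlinarith
    have h6 : ⌊cq s 1⌋ - ⌊cq s 3⌋ = 0 := by omega
    rw [h6, zero_mul] at h1
    linarith
  subst hPP
  have hr0 : 0 < P3 := by
    have : (0 : ℝ) < P3 := by linarith
    exact_mod_cast this
  have hcop := cop p hp s hs hs0 P3 Q3 Q2 hr0 b1 hQ2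
  have hdvd : Q2 ∣ 2 * P3 := ⟨⌊cq s 2⌋, by linarith⟩
  have h2 : Q2 ∣ 2 := hcop.dvd_of_dvd_mul_right hdvd
  have hle := Int.le_of_dvd (by norm_num) h2
  rcases (show Q2 = 1 ∨ Q2 = 2 by omega) with h3 | h3
  · exfalso
    subst h3
    have hT := T_le p 2 (by norm_num) (by
      show cq s 3 = cq s 1
      have hP3a : P3 = P4 := int_close P3 P4 s b1 (by exact_mod_cast b3) has has1
      have hx3' : cq s 3 = (P3 + s) / Q3 := hx3
      rw [hx3', hx1, hP3a])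
    omega
  · subst h3
    -- p = P4^2 + Q3 = P3^2 + 2 Q3
    have h4 : (P4 - P3) * (P4 + P3) = Q3 := by nlinarith
    have h5 : P4 + P3 = ⌊cq s 1⌋ * Q3 := by linarith
    have h6 : ((P4 - P3) * ⌊cq s 1⌋) * Q3 = 1 * Q3 := by
      rw [one_mul]
      calc ((P4 - P3) * ⌊cq s 1⌋) * Q3 = (P4 - P3) * (⌊cq s 1⌋ * Q3) := by ring
        _ = (P4 - P3) * (P4 + P3) := by rw [h5]
        _ = Q3 := h4
    have h7 : (P4 - P3) * ⌊cq s 1⌋ = 1 := mul_right_cancel₀ hc.ne' h6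
    have h8 : 0 < P4 - P3 := by
      by_contra hcon
      push Not at hcon
      have : (P4 - P3) * (P4 + P3) ≤ 0 := mul_nonpos_of_nonpos_of_nonneg hcon (by linarith)
      linarith
    have h9 : P4 - P3 = 1 := by
      rcases Int.eq_one_or_neg_one_of_mul_eq_one h7 with h | h
      · exact h
      · omega
    have h10 : Q3 = 2 * P4 - 1 := by
      rw [← h4, h9]; linarith
    obtain ⟨n, hn⟩ : ∃ n : ℕ, P4 = n := ⟨P4.toNat, (Int.toNat_of_nonneg ha.le).symm⟩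
    refine ⟨n + 1, by omega, ?_⟩
    zify
    rw [← hn]
    have : (p : ℤ) = P4 ^ 2 + Q3 := by linarith
    rw [this, h10]
    ring

theorem next_of (s : ℝ) (k : ℕ) (x y : ℝ) (f : ℤ) (hx : cq s k = x) (hf1 : (f : ℝ) ≤ x)
    (hf2 : x < f + 1) (hy : (x - f) * y = 1) : pq s k = f ∧ cq s (k + 1) = y := by
  have h1 : ⌊cq s k⌋ = f := by
    rw [hx, Int.floor_eq_iff]
    exact ⟨hf1, hf2⟩
  refine ⟨h1, ?_⟩
  show 1 / (cq s k - ⌊cq s k⌋) = y
  rw [h1, hx, div_eq_iff (left_ne_zero_of_mul_eq_one hy)]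
  linarith

theorem of_two (p : ℕ) (hp : p.Prime) (n : ℕ) (hn : 1 ≤ n) (h : p = n ^ 2 + 2) : T p = 2 := by
  have hs : (√(p : ℝ)) ^ 2 = p := Real.sq_sqrt (by positivity)
  have hs0 : 0 < √(p : ℝ) := Real.sqrt_pos.2 (by exact_mod_cast hp.pos)
  obtain ⟨a, c, ha, hc, hac, has, has1, hcs, hx1, -⟩ := init p hp
  set s := √(p : ℝ) with hsdef
  have hnr : (1 : ℝ) ≤ n := by exact_mod_cast hn
  have hs2 : s ^ 2 = (n : ℝ) ^ 2 + 2 := by rw [hs, h]; push_cast; ring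
  have h1 : (n : ℝ) < s := by nlinarith
  have h2 : s < n + 1 := by nlinarith
  have han : a = n := int_close a n s has has1 (by exact_mod_cast h1) (by push_cast; linarith)
  subst han
  have hc2 : c = 2 := by
    have : (p : ℤ) = (n : ℤ) ^ 2 + 2 := by rw [h]; push_cast; ring
    linarith
  subst hc2
  push_cast at hx1
  obtain ⟨q1, x2⟩ := next_of s 1 _ (s + n) n hx1 (by push_cast; linarith)
    (by push_cast; linarith) (by push_cast; nlinarith)
  obtain ⟨q2, x3⟩ := next_of s 2 _ ((n + s) / 2) (2 * n) x2 (by push_cast; linarith)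
    (by push_cast; linarith) (by push_cast; nlinarith)
  refine T_eq p 2 (by norm_num) (by
    show cq s 3 = cq s 1
    rw [x3, hx1]) ?_
  intro t' ht1 ht2
  have : t' = 1 := by omega
  subst this
  refine ⟨1, le_rfl, ?_⟩
  show pq s 2 ≠ pq s 1
  rw [q1, q2]
  omega

theorem of_four (p : ℕ) (hp : p.Prime) (n : ℕ) (hn : 3 ≤ n) (h : p + 2 = n ^ 2) : T p = 4 := by
  have hs : (√(p : ℝ)) ^ 2 = p := Real.sq_sqrt (by positivity)
  have hs0 : 0 < √(p : ℝ) := Real.sqrt_pos.2 (by exact_mod_cast hp.pos)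
  obtain ⟨a, c, ha, hc, hac, has, has1, hcs, hx1, -⟩ := init p hp
  set s := √(p : ℝ) with hsdef
  have hnr : (3 : ℝ) ≤ n := by exact_mod_cast hn
  have hpr : (p : ℝ) = (n : ℝ) ^ 2 - 2 := by
    have : (p : ℝ) + 2 = (n : ℝ) ^ 2 := by exact_mod_cast h
    linarith
  have hs2 : s ^ 2 = (n : ℝ) ^ 2 - 2 := by rw [hs, hpr]
  have h1 : (n : ℝ) - 1 < s := by nlinarith
  have h2 : s < n := by nlinarith
  have han : a = (n : ℤ) - 1 := int_close a ((n : ℤ) - 1) s has has1 (by push_cast; exact h1)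
    (by push_cast; linarith)
  subst han
  have hc2 : c = 2 * (n : ℤ) - 3 := by
    have : (p : ℤ) = (n : ℤ) ^ 2 - 2 := by
      have : (p : ℤ) + 2 = (n : ℤ) ^ 2 := by exact_mod_cast h
      linarith
    rw [this] at hac
    linarith
  subst hc2
  push_cast at hx1
  have hd : (0 : ℝ) < 2 * n - 3 := by linarith
  have hd' : (2 * (n : ℝ) - 3) ≠ 0 := hd.ne'
  obtain ⟨q1, x2⟩ := next_of s 1 _ ((n - 2 + s) / 2) 1 hx1
    (by push_cast; rw [le_div_iff₀ hd]; linarith)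
    (by push_cast; rw [div_lt_iff₀ hd]; linarith)
    (by push_cast; rw [div_sub_one hd', div_mul_div_comm, div_eq_one_iff_eq (by positivity)]
        linear_combination hs2)
  obtain ⟨q2, x3⟩ := next_of s 2 _ ((n - 2 + s) / (2 * n - 3)) ((n : ℤ) - 2) x2
    (by push_cast; linarith) (by push_cast; linarith)
    (by push_cast; rw [← mul_div_assoc, div_eq_one_iff_eq hd']; linear_combination hs2 / 2)
  obtain ⟨q3, x4⟩ := next_of s 3 _ (s + n - 1) 1 x3
    (by push_cast; rw [le_div_iff₀ hd]; linarith)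
    (by push_cast; rw [div_lt_iff₀ hd]; linarith)
    (by push_cast; rw [div_sub_one hd', div_mul_eq_mul_div, div_eq_one_iff_eq hd']
        linear_combination hs2)
  obtain ⟨q4, x5⟩ := next_of s 4 _ ((n - 1 + s) / (2 * n - 3)) (2 * (n : ℤ) - 2) x4
    (by push_cast; linarith) (by push_cast; linarith)
    (by push_cast; rw [← mul_div_assoc, div_eq_one_iff_eq hd']; linear_combination hs2)
  refine T_eq p 4 (by norm_num) (by
    show cq s 5 = cq s 1
    rw [x5, hx1]) ?_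
  intro t' ht1 ht2
  rcases (show t' = 1 ∨ t' = 2 ∨ t' = 3 by omega) with h3 | h3 | h3
  · subst h3
    refine ⟨3, by norm_num, ?_⟩
    show pq s 4 ≠ pq s 3
    rw [q4, q3]
    omega
  · subst h3
    refine ⟨2, by norm_num, ?_⟩
    show pq s 4 ≠ pq s 2
    rw [q4, q2]
    omega
  · subst h3
    refine ⟨1, by norm_num, ?_⟩
    show pq s 4 ≠ pq s 1
    rw [q4, q1]
    omega

open Classical in
theorem transfer (P : ℕ → Prop) (X : ℕ) :
    ((Finset.range (Nat.count Nat.Prime X)).filter (fun m => P (Nat.nth Nat.Prime m))).card =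
      ((Finset.range X).filter (fun p => p.Prime ∧ P p)).card := by
  refine Finset.card_bij (fun m _ => Nat.nth Nat.Prime m) ?_ ?_ ?_
  · intro m hm
    rw [Finset.mem_filter, Finset.mem_range] at hm
    rw [Finset.mem_filter, Finset.mem_range]
    exact ⟨Nat.nth_lt_of_lt_count hm.1, Nat.prime_nth_prime m, hm.2⟩
  · intro m _ m' _ he
    exact Nat.nth_injective Nat.infinite_setOf_prime he
  · intro p hp
    rw [Finset.mem_filter, Finset.mem_range] at hp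
    refine ⟨Nat.count Nat.Prime p, ?_, Nat.nth_count hp.2.1⟩
    rw [Finset.mem_filter, Finset.mem_range]
    refine ⟨Nat.count_strict_mono hp.2.1 hp.1, ?_⟩
    rw [Nat.nth_count hp.2.1]
    exact hp.2.2

theorem state (p : ℕ) (hp : p.Prime) (k : ℕ) : ∃ P Q Q0 : ℤ, 0 < Q ∧ Q * Q0 = p - P ^ 2 ∧
    (P : ℝ) < √(p : ℝ) ∧ √(p : ℝ) - P < Q ∧ (Q : ℝ) < P + √(p : ℝ) ∧ √(p : ℝ) - P < Q0 ∧
    cq (√(p : ℝ)) (k + 1) = (P + √(p : ℝ)) / Q ∧ ∃ A B A' B' : ℤ,
      A ^ 2 - p * B ^ 2 = (-1) ^ (k + 1) * Q ∧ A' ^ 2 - p * B' ^ 2 = (-1) ^ k * Q0 ∧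
      A * A' - p * B * B' = (-1) ^ k * P := by
  have hirr : Irrational (√(p : ℝ)) := hp.irrational_sqrt
  have hs : (√(p : ℝ)) ^ 2 = p := Real.sq_sqrt (by positivity)
  induction k with
  | zero =>
    obtain ⟨a, c, ha, hc, hac, has, has1, hcs, hx1, -⟩ := init p hp
    have hc1 : (1 : ℝ) ≤ c := by exact_mod_cast hc
    refine ⟨a, c, 1, hc, hac, has, by linarith, hcs, by push_cast; linarith, hx1,
      a, 1, 1, 0, ?_, ?_, ?_⟩
    · simp only [zero_add, pow_one, one_pow]; linarith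
    · simp
    · simp
  | succ k ih =>
    obtain ⟨P, Q, Q0, hQ, hd, h1, h2, h3, h4, hx, A, B, A', B', e1, e2, e3⟩ := ih
    obtain ⟨P', Q', hP', hQ', hQ'p, b1, b2, b3, b4, hx'⟩ := step p _ hs P Q Q0 hQ hd h1 h2 h3 _ hx
      (irr_cq _ hirr (k + 1))
    set f := ⌊cq (√(p : ℝ)) (k + 1)⌋ with hf
    have hQe : Q' = Q0 - f ^ 2 * Q + 2 * f * P := by
      have : Q * Q' = Q * (Q0 - f ^ 2 * Q + 2 * f * P) := by
        rw [hQ', hP']; linear_combination -hd
      exact mul_left_cancel₀ hQ.ne' this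
    refine ⟨P', Q', Q, hQ'p, by linarith, b1, b3, b4, b2, hx', f * A + A', f * B + B', A, B,
      ?_, ?_, ?_⟩
    · rw [hQe]
      rw [pow_succ] at e1 ⊢
      rw [pow_succ]
      linear_combination f ^ 2 * e1 + 2 * f * e3 + e2
    · exact e1
    · rw [hP']
      rw [pow_succ] at e1 ⊢
      linear_combination f * e1 + e3

theorem back (p : ℕ) (hp : p.Prime) (i j : ℕ)
    (h : cq (√(p : ℝ)) (i + 2) = cq (√(p : ℝ)) (j + 2)) :
    cq (√(p : ℝ)) (i + 1) = cq (√(p : ℝ)) (j + 1) := by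
  have hirr : Irrational (√(p : ℝ)) := hp.irrational_sqrt
  have hs : (√(p : ℝ)) ^ 2 = p := Real.sq_sqrt (by positivity)
  obtain ⟨P, Q, Q0, hQ, hd, h1, h2, h3, h4, hx, -⟩ := state p hp i
  obtain ⟨R, U, U0, hU, hd', k1, k2, k3, k4, hy, -⟩ := state p hp j
  obtain ⟨P', Q', hP', hQ', hQ'p, b1, b2, b3, b4, hx'⟩ := step p _ hs P Q Q0 hQ hd h1 h2 h3 _ hx
      (irr_cq _ hirr (i + 1))
  obtain ⟨R', U', hR', hU', hU'p, c1, c2, c3, c4, hy'⟩ := step p _ hs R U U0 hU hd' k1 k2 k3 _ hy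
      (irr_cq _ hirr (j + 1))
  have e1 : cq (√(p : ℝ)) (i + 2) = (P' + √(p : ℝ)) / Q' := hx'
  have e2 : cq (√(p : ℝ)) (j + 2) = (R' + √(p : ℝ)) / U' := hy'
  rw [e1, e2] at h
  obtain ⟨g1, g2⟩ := pair_eq _ hirr P' Q' R' U' hQ'p hU'p h
  subst g1 g2
  have hQU : Q = U := by
    have : Q * Q' = U * Q' := by rw [hQ', hU']
    exact mul_right_cancel₀ hQ'p.ne' this
  subst hQU
  have hPR : P = R := by
    have m1 : P - R = (⌊cq (√(p : ℝ)) (i + 1)⌋ - ⌊cq (√(p : ℝ)) (j + 1)⌋) * Q := by linarith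
    have m2 : ((P - R : ℤ) : ℝ) < Q := by push_cast; linarith
    have m3 : -(Q : ℝ) < ((P - R : ℤ) : ℝ) := by push_cast; linarith
    have m2' : P - R < Q := by exact_mod_cast m2
    have m3' : -Q < P - R := by exact_mod_cast m3
    rw [m1] at m2' m3'
    have m4 : ⌊cq (√(p : ℝ)) (i + 1)⌋ - ⌊cq (√(p : ℝ)) (j + 1)⌋ < 1 := by nlinarith
    have m5 : -1 < ⌊cq (√(p : ℝ)) (i + 1)⌋ - ⌊cq (√(p : ℝ)) (j + 1)⌋ := by nlinarith
    have m6 : ⌊cq (√(p : ℝ)) (i + 1)⌋ - ⌊cq (√(p : ℝ)) (j + 1)⌋ = 0 := by omega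
    rw [m6, zero_mul] at m1
    linarith
  subst hPR
  rw [hx, hy]

theorem back_all (p : ℕ) (hp : p.Prime) (t i : ℕ)
    (h : cq (√(p : ℝ)) (i + t + 1) = cq (√(p : ℝ)) (i + 1)) :
    cq (√(p : ℝ)) (1 + t) = cq (√(p : ℝ)) 1 := by
  induction i with
  | zero =>
    rw [show 1 + t = 0 + t + 1 by ring]
    exact h
  | succ i ih =>
    refine ih (back p hp (i + t) i ?_)
    rw [show i + t + 2 = i + 1 + t + 1 by ring]
    exact h

open Classical in
/-- the box of pairs -/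
noncomputable def pairs (r n : ℕ) : Finset (ℕ × ℕ) :=
  (Finset.range r ×ˢ Finset.range (2 * r)).filter (fun z => 0 < z.2 ∧ n ≡ z.1 ^ 2 [MOD z.2])

theorem per_exists (p : ℕ) (hp : p.Prime) (r : ℕ) (hr : p < r ^ 2) : ∃ t, 1 ≤ t ∧
    t ≤ (pairs r p).card ∧ cq (√(p : ℝ)) (1 + t) = cq (√(p : ℝ)) 1 := by
  classical
  have hsr : √(p : ℝ) < r := by
    rw [Real.sqrt_lt' (by
      have : 0 < r := by
        by_contra h
        have : r = 0 := by omega
        rw [this] at hr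
        simp at hr
      exact_mod_cast this)]
    exact_mod_cast hr
  have hst := fun k => state p hp k
  choose P Q Q0 hQ hd h1 h2 h3 h4 hx hA using hst
  have hP0 : ∀ k, 0 < P k := by
    intro k
    have : (0 : ℝ) < P k := by
      have := h2 k
      have := h3 k
      linarith
    exact_mod_cast this
  have hmaps : ∀ k ∈ Finset.range ((pairs r p).card + 1),
      ((P k).toNat, (Q k).toNat) ∈ pairs r p := by
    intro k _
    have hPn : (((P k).toNat : ℕ) : ℤ) = P k := Int.toNat_of_nonneg (hP0 k).le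
    have hQn : (((Q k).toNat : ℕ) : ℤ) = Q k := Int.toNat_of_nonneg (hQ k).le
    have hPr : P k < r := by
      have : (P k : ℝ) < (r : ℝ) := lt_trans (h1 k) hsr
      exact_mod_cast this
    have hQr : Q k < 2 * r := by
      have : (Q k : ℝ) < 2 * (r : ℝ) := by
        have := h3 k
        have := h1 k
        linarith
      exact_mod_cast this
    unfold pairs
    rw [Finset.mem_filter, Finset.mem_product, Finset.mem_range, Finset.mem_range]
    have hQk := hQ k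
    refine ⟨⟨by simp only; omega, by simp only; omega⟩, by simp only; omega, ?_⟩
    rw [← Int.natCast_modEq_iff]
    push_cast
    rw [hPn, hQn]
    refine (Int.modEq_iff_dvd.2 ?_).symm
    exact ⟨Q0 k, (hd k).symm⟩
  obtain ⟨i, hi, j, hj, hij, he⟩ := Finset.exists_ne_map_eq_of_card_lt_of_maps_to
    (by simp) hmaps
  rw [Finset.mem_range] at hi hj
  have main : ∀ i j : ℕ, i < j → j < (pairs r p).card + 1 →
      ((P i).toNat, (Q i).toNat) = ((P j).toNat, (Q j).toNat) → ∃ t, 1 ≤ t ∧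
      t ≤ (pairs r p).card ∧ cq (√(p : ℝ)) (1 + t) = cq (√(p : ℝ)) 1 := by
    intro i j hij hj he
    rw [Prod.mk.injEq] at he
    have hPe : P i = P j := by
      have a1 := hP0 i
      have a2 := hP0 j
      omega
    have hQe : Q i = Q j := by
      have a1 := hQ i
      have a2 := hQ j
      omega
    refine ⟨j - i, by omega, by omega, back_all p hp (j - i) i ?_⟩
    rw [show i + (j - i) + 1 = j + 1 by omega, hx j, hx i, hPe, hQe]
  rcases lt_or_gt_of_ne hij with h | h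
  · exact main i j h hj he
  · exact main j i h hi he.symm

theorem T_le_pairs (p : ℕ) (hp : p.Prime) (r : ℕ) (hr : p < r ^ 2) :
    T p ≤ (pairs r p).card := by
  obtain ⟨t, h1, h2, h3⟩ := per_exists p hp r hr
  exact (T_le p t h1 h3).trans h2

theorem T_pos (p : ℕ) (hp : p.Prime) : 1 ≤ T p := by
  obtain ⟨t, h1, h2, h3⟩ := per_exists p hp (p + 1) (by nlinarith [hp.pos])
  have hne : {t : ℕ | 1 ≤ t ∧ ∀ k, 1 ≤ k →
      pq (√(p : ℝ)) (k + t) = pq (√(p : ℝ)) k}.Nonempty := ⟨t, h1, cq_per _ t h3⟩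
  exact (Nat.sInf_mem hne).1

theorem T_even (p : ℕ) (hp : p.Prime) (h4 : p % 4 = 3) : Even (T p) := by
  by_contra hodd
  rw [Nat.not_even_iff_odd] at hodd
  have hirr : Irrational (√(p : ℝ)) := hp.irrational_sqrt
  have hper := per_cq _ hirr (T p) (T_mem p (T p) (T_pos p hp) rfl)
  obtain ⟨a, c, ha, hc, hac, has, has1, hcs, hx1, -⟩ := init p hp
  obtain ⟨P, Q, Q0, hQ, hd, h1, h2, h3, h4', hx, A, B, A', B', e1, e2, e3⟩ := state p hp (T p)
  rw [show T p + 1 = 1 + T p by ring, hper, hx1] at hx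
  obtain ⟨g1, g2⟩ := pair_eq _ hirr a c P Q hc hQ hx
  subst g1 g2
  have hQ01 : Q0 = 1 := by
    have : c * Q0 = c * 1 := by rw [hd, hac]
    exact mul_left_cancel₀ hc.ne' this
  rw [hQ01, hodd.neg_one_pow] at e2
  haveI : Fact p.Prime := ⟨hp⟩
  have hz : ((A' : ZMod p)) ^ 2 = -1 := by
    have : ((A' ^ 2 - p * B' ^ 2 : ℤ) : ZMod p) = ((-1 * 1 : ℤ) : ZMod p) := by rw [e2]
    push_cast at this
    rw [ZMod.natCast_self, zero_mul, sub_zero] at this
    rw [this]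
  exact ZMod.mod_four_ne_three_of_sq_eq_neg_one hz h4

end Pool.Agent.H83.CF
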