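import Pool.Agent.H83.CF.Odd
set_option autoImplicit false
open Filter Topology
namespace Pool.Agent.H83.CF

open Classical in
theorem total (x r : ℕ) : ∑ n ∈ Finset.range x, (pairs r n).card ≤
    r * ∑ q ∈ Finset.range (2 * r), (x / (q + 1) + 1) := by
  have h1 : ∀ n, (pairs r n).card = ∑ z ∈ Finset.range r ×ˢ Finset.range (2 * r),
      if (0 < z.2 ∧ n ≡ z.1 ^ 2 [MOD z.2]) then 1 else 0 := by
    intro n
    unfold pairs
    rw [Finset.card_filter]
  have h2 : ∀ P Q : ℕ, ∑ n ∈ Finset.range x, (if (0 < Q ∧ n ≡ P ^ 2 [MOD Q]) then 1 else 0) ≤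
      if 0 < Q then x / Q + 1 else 0 := by
    intro P Q
    by_cases hQ : 0 < Q
    · rw [if_pos hQ, ← Finset.card_filter]
      have h3 : (Finset.range x).filter (fun n => 0 < Q ∧ n ≡ P ^ 2 [MOD Q]) =
          (Finset.range x).filter (fun n => n ≡ P ^ 2 [MOD Q]) := by
        refine Finset.filter_congr ?_
        intro n _
        simp [hQ]
      have h4 : ((Finset.range x).filter (fun n => n ≡ P ^ 2 [MOD Q])).card =
          x.count (· ≡ P ^ 2 [MOD Q]) := by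
        rw [Nat.count_eq_card_filter_range]
      rw [h3, h4, Nat.count_modEq_card _ hQ]
      split_ifs <;> omega
    · rw [if_neg hQ]
      refine le_of_eq (Finset.sum_eq_zero ?_)
      intro n _
      rw [if_neg (fun h => hQ h.1)]
  calc ∑ n ∈ Finset.range x, (pairs r n).card
      = ∑ n ∈ Finset.range x, ∑ z ∈ Finset.range r ×ˢ Finset.range (2 * r),
        (if (0 < z.2 ∧ n ≡ z.1 ^ 2 [MOD z.2]) then 1 else 0) := Finset.sum_congr rfl (fun n _ => h1 n)
    _ = ∑ z ∈ Finset.range r ×ˢ Finset.range (2 * r), ∑ n ∈ Finset.range x,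
        (if (0 < z.2 ∧ n ≡ z.1 ^ 2 [MOD z.2]) then 1 else 0) := Finset.sum_comm
    _ ≤ ∑ z ∈ Finset.range r ×ˢ Finset.range (2 * r), (if 0 < z.2 then x / z.2 + 1 else 0) :=
        Finset.sum_le_sum (fun z _ => h2 z.1 z.2)
    _ = ∑ P ∈ Finset.range r, ∑ Q ∈ Finset.range (2 * r), (if 0 < Q then x / Q + 1 else 0) :=
        Finset.sum_product _ _ _
    _ = r * ∑ Q ∈ Finset.range (2 * r), (if 0 < Q then x / Q + 1 else 0) := by
        rw [Finset.sum_const, Finset.card_range, smul_eq_mul]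
    _ ≤ r * ∑ Q ∈ Finset.range (2 * r + 1), (if 0 < Q then x / Q + 1 else 0) := by
        refine Nat.mul_le_mul_left _ ?_
        rw [Finset.sum_range_succ]
        omega
    _ = r * ∑ q ∈ Finset.range (2 * r), (x / (q + 1) + 1) := by
        rw [Finset.sum_range_succ']
        simp

theorem hsum (M : ℕ) : ∑ q ∈ Finset.range M, (1 / ((q : ℝ) + 1)) ≤ 2 * √(M : ℝ) := by
  induction M with
  | zero => simp
  | succ M ih =>
    rw [Finset.sum_range_succ]
    have ha : (√(M : ℝ)) ^ 2 = M := Real.sq_sqrt (by positivity)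
    have hb : (√((M + 1 : ℕ) : ℝ)) ^ 2 = M + 1 := by
      rw [Real.sq_sqrt (by positivity)]; push_cast; ring
    have ha0 : 0 ≤ √(M : ℝ) := Real.sqrt_nonneg _
    have hb1 : 1 ≤ √((M + 1 : ℕ) : ℝ) := by
      rw [Real.one_le_sqrt]; push_cast; linarith [(Nat.cast_nonneg M : (0 : ℝ) ≤ M)]
    generalize √(M : ℝ) = a at *
    generalize √((M + 1 : ℕ) : ℝ) = b at *
    have hab : a ≤ b := by nlinarith
    have h1 : (b - a) * (b + a) = 1 := by nlinarith
    have h2 : 1 / b ≤ 2 * (b - a) := by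
      rw [div_le_iff₀ (by linarith)]
      nlinarith
    have h3 : 1 / ((M : ℝ) + 1) ≤ 1 / b := by
      refine one_div_le_one_div_of_le (by linarith) ?_
      nlinarith
    linarith

theorem totalR (x : ℕ) (τ : ℝ) (hτ : 1 ≤ τ) (h4 : τ ^ 4 = x) :
    ((∑ n ∈ Finset.range x, (pairs (Nat.sqrt x + 1) n).card : ℕ) : ℝ) ≤ 16 * τ ^ 7 := by
  set r := Nat.sqrt x + 1 with hr
  have h1 : ((∑ n ∈ Finset.range x, (pairs r n).card : ℕ) : ℝ) ≤
      ((r * ∑ q ∈ Finset.range (2 * r), (x / (q + 1) + 1) : ℕ) : ℝ) := by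
    exact_mod_cast total x r
  have hr2 : (r : ℝ) ≤ 2 * τ ^ 2 := by
    have h2 : (Nat.sqrt x : ℝ) ^ 2 ≤ τ ^ 4 := by
      rw [h4]; exact_mod_cast Nat.sqrt_le' x
    have h3 : (Nat.sqrt x : ℝ) ≤ τ ^ 2 := by
      refine le_of_sq_le_sq ?_ (by positivity)
      calc (Nat.sqrt x : ℝ) ^ 2 ≤ τ ^ 4 := h2
        _ = (τ ^ 2) ^ 2 := by ring
    have h5 : (1 : ℝ) ≤ τ ^ 2 := one_le_pow₀ hτ
    rw [hr]; push_cast; linarith
  have h2 : ((∑ q ∈ Finset.range (2 * r), (x / (q + 1) + 1) : ℕ) : ℝ) ≤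
      τ ^ 4 * (4 * τ) + 4 * τ ^ 2 := by
    have h3 : ((∑ q ∈ Finset.range (2 * r), (x / (q + 1) + 1) : ℕ) : ℝ) ≤
        ∑ q ∈ Finset.range (2 * r), (τ ^ 4 * (1 / ((q : ℝ) + 1)) + 1) := by
      push_cast
      refine Finset.sum_le_sum ?_
      intro q _
      have h5 : ((x / (q + 1) : ℕ) : ℝ) ≤ (x : ℝ) / ((q + 1 : ℕ) : ℝ) := Nat.cast_div_le
      push_cast at h5
      rw [h4, mul_one_div]
      linarith
    refine h3.trans ?_
    rw [Finset.sum_add_distrib, ← Finset.mul_sum, Finset.sum_const, Finset.card_range,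
      nsmul_eq_mul, mul_one]
    have h5 := hsum (2 * r)
    have h6 : √((2 * r : ℕ) : ℝ) ≤ 2 * τ := by
      rw [Real.sqrt_le_left (by linarith)]
      push_cast
      nlinarith
    have h7 : ∑ q ∈ Finset.range (2 * r), (1 / ((q : ℝ) + 1)) ≤ 4 * τ := by linarith
    have h8 : τ ^ 4 * ∑ q ∈ Finset.range (2 * r), (1 / ((q : ℝ) + 1)) ≤ τ ^ 4 * (4 * τ) :=
      mul_le_mul_of_nonneg_left h7 (by positivity)
    push_cast
    linarith
  refine h1.trans ?_
  rw [Nat.cast_mul]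
  calc (r : ℝ) * ((∑ q ∈ Finset.range (2 * r), (x / (q + 1) + 1) : ℕ) : ℝ)
      ≤ (2 * τ ^ 2) * (τ ^ 4 * (4 * τ) + 4 * τ ^ 2) :=
        mul_le_mul hr2 h2 (by positivity) (by positivity)
    _ = 8 * τ ^ 7 + 8 * τ ^ 4 := by ring
    _ ≤ 16 * τ ^ 7 := by
        have : τ ^ 4 ≤ τ ^ 7 := pow_le_pow_right₀ hτ (by norm_num)
        linarith

open Classical in
theorem lowerbound (S : Finset ℕ) (T : ℕ → ℕ) (k : ℕ) (hk1 : 1 ≤ k)
    (hT : ∀ p ∈ S, Even (T p) ∧ 1 ≤ T p)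
    (hk : ∀ i, 1 ≤ i → (S.filter (fun p => T p = 2 * i)).card ≤ k) :
    (S.card) ^ 2 ≤ 2 * k * (∑ p ∈ S, T p + S.card) := by
  have h1 : ∀ t : ℕ, (S.filter (fun p => T p ≤ 2 * t)).card ≤ t * k := by
    intro t
    have h2 : S.filter (fun p => T p ≤ 2 * t) ⊆
        (Finset.Icc 1 t).biUnion (fun i => S.filter (fun p => T p = 2 * i)) := by
      intro p hp
      rw [Finset.mem_filter] at hp
      obtain ⟨⟨j, hj⟩, h3⟩ := hT p hp.1
      rw [Finset.mem_biUnion]
      refine ⟨j, ?_, ?_⟩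
      · rw [Finset.mem_Icc]; omega
      · rw [Finset.mem_filter]; exact ⟨hp.1, by omega⟩
    refine (Finset.card_le_card h2).trans (Finset.card_biUnion_le.trans ?_)
    refine (Finset.sum_le_card_nsmul _ _ k ?_).trans ?_
    · intro i hi
      rw [Finset.mem_Icc] at hi
      exact hk i hi.1
    · simp
  set N := S.card with hN
  set t := N / (2 * k) with ht
  have h3 : t * (2 * k) ≤ N := Nat.div_mul_le_self _ _
  have h4 : N < (t + 1) * (2 * k) := by
    rw [ht]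
    have := Nat.lt_div_mul_add (a := N) (b := 2 * k) (by omega)
    nlinarith
  have h5 : 2 * t * (S.filter (fun p => ¬ T p ≤ 2 * t)).card ≤ ∑ p ∈ S, T p := by
    calc 2 * t * (S.filter (fun p => ¬ T p ≤ 2 * t)).card
        = ∑ p ∈ S.filter (fun p => ¬ T p ≤ 2 * t), 2 * t := by
          rw [Finset.sum_const, smul_eq_mul, mul_comm]
      _ ≤ ∑ p ∈ S.filter (fun p => ¬ T p ≤ 2 * t), T p := by
          refine Finset.sum_le_sum ?_
          intro p hp
          rw [Finset.mem_filter] at hp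
          omega
      _ ≤ ∑ p ∈ S, T p := Finset.sum_le_sum_of_subset (Finset.filter_subset _ _)
  have h6 : (S.filter (fun p => T p ≤ 2 * t)).card +
      (S.filter (fun p => ¬ T p ≤ 2 * t)).card = N := Finset.card_filter_add_card_filter_not _
  have h7 := h1 t
  have h8 : N ≤ 2 * (S.filter (fun p => ¬ T p ≤ 2 * t)).card := by nlinarith
  have h9 : t * N ≤ ∑ p ∈ S, T p := by nlinarith
  nlinarith

theorem W_mono (i : ℕ) {N M : ℕ} (h : N ≤ M) : W i N ≤ W i M := by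
  classical
  unfold W
  exact Finset.card_le_card (Finset.filter_subset_filter _ (Finset.range_mono h))

open Classical in
theorem W_count (i X : ℕ) : W i (Nat.count Nat.Prime X) =
    ((Finset.range X).filter (fun p => p.Prime ∧ T p = i)).card := by
  have h := transfer (fun p => T p = i) X
  unfold W
  convert h

theorem classes (e : ℕ) (he1 : e ≤ 1) (h : ∀ i : ℕ, 1 ≤ i →
    Tendsto (fun N : ℕ => (W (2 * i + 2 - e) N : ℝ) / (W (2 * i - e) N : ℝ)) atTop (𝓝 1))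
    (k : ℕ) (hk : ∀ N, W (2 - e) N ≤ k) : ∀ i, 1 ≤ i → ∀ N, W (2 * i - e) N ≤ k := by
  intro i hi
  induction i, hi using Nat.le_induction with
  | base => exact hk
  | succ i hi ih =>
    intro N
    have hkp : (0 : ℝ) < (k : ℝ) + 1 := by positivity
    have h1 : ∀ᶠ N in atTop, (W (2 * i + 2 - e) N : ℝ) / (W (2 * i - e) N : ℝ) ∈
        Set.Ioo (1 / 2 : ℝ) (1 + 1 / ((k : ℝ) + 1)) := by
      refine (h i hi).eventually (Ioo_mem_nhds (by norm_num) ?_)
      have : 0 < 1 / ((k : ℝ) + 1) := by positivity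
      linarith
    obtain ⟨N0, hN0⟩ := eventually_atTop.1 h1
    have h2 := hN0 (max N N0) (le_max_right _ _)
    have h3 : W (2 * (i + 1) - e) N ≤ W (2 * i + 2 - e) (max N N0) :=
      W_mono _ (le_max_left _ _)
    refine h3.trans ?_
    have h4 := ih (max N N0)
    generalize W (2 * i + 2 - e) (max N N0) = a at *
    generalize W (2 * i - e) (max N N0) = b at *
    have hb : 0 < b := by
      rcases Nat.eq_zero_or_pos b with hb | hb
      · rw [hb] at h2
        simp only [Nat.cast_zero, div_zero, Set.mem_Ioo] at h2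
        linarith [h2.1]
      · exact hb
    have hbr : (0 : ℝ) < b := by exact_mod_cast hb
    have h5 : (a : ℝ) < (1 + 1 / ((k : ℝ) + 1)) * b := (div_lt_iff₀ hbr).1 h2.2
    have h6 : (b : ℝ) / ((k : ℝ) + 1) < 1 := by
      rw [div_lt_one hkp]
      have : (b : ℝ) ≤ k := by exact_mod_cast h4
      linarith
    have h7 : (a : ℝ) < b + 1 := by
      have : (1 + 1 / ((k : ℝ) + 1)) * b = b + b / ((k : ℝ) + 1) := by ring
      linarith
    have h8 : a < b + 1 := by exact_mod_cast h7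
    omega

theorem key (ρ : ZMod 4) (e : ℕ) (he1 : e ≤ 1)
    (hev : ∀ p : ℕ, p.Prime → (p : ZMod 4) = ρ → Even (T p + e))
    (k : ℕ) (hk1 : 1 ≤ k) (hk : ∀ i, 1 ≤ i → ∀ N, W (2 * i - e) N ≤ k)
    (X : ℕ) (τ : ℝ) (hτ : 1 ≤ τ) (h4 : τ ^ 4 = X) :
    ((Nat.count (fun p : ℕ => p.Prime ∧ (p : ZMod 4) = ρ) X : ℕ) : ℝ) ^ 2 ≤ 36 * k * τ ^ 7 := by
  classical
  set S := (Finset.range X).filter (fun p : ℕ => p.Prime ∧ (p : ZMod 4) = ρ) with hS
  have hcard : Nat.count (fun p : ℕ => p.Prime ∧ (p : ZMod 4) = ρ) X = S.card := by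
    rw [hS, Nat.count_eq_card_filter_range]
  rw [hcard]
  have hmem : ∀ p ∈ S, p < X ∧ p.Prime ∧ Even (T p + e) := by
    intro p hp
    rw [hS, Finset.mem_filter, Finset.mem_range] at hp
    exact ⟨hp.1, hp.2.1, hev p hp.2.1 hp.2.2⟩
  have h1 := lowerbound S (fun p => T p + e) k hk1 (fun p hp => ⟨(hmem p hp).2.2,
    (T_pos p (hmem p hp).2.1).trans (Nat.le_add_right _ _)⟩) (by
    intro i hi
    refine le_trans ?_ (hk i hi (Nat.count Nat.Prime X))
    rw [W_count]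
    refine Finset.card_le_card ?_
    intro p hp
    rw [Finset.mem_filter] at hp ⊢
    rw [Finset.mem_range]
    exact ⟨(hmem p hp.1).1, (hmem p hp.1).2.1, by omega⟩)
  have h2 : ∑ p ∈ S, T p ≤ ∑ n ∈ Finset.range X, (pairs (Nat.sqrt X + 1) n).card := by
    calc ∑ p ∈ S, T p ≤ ∑ p ∈ S, (pairs (Nat.sqrt X + 1) p).card := by
          refine Finset.sum_le_sum ?_
          intro p hp
          exact T_le_pairs p (hmem p hp).2.1 _ ((hmem p hp).1.trans (Nat.lt_succ_sqrt' X))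
      _ ≤ _ := Finset.sum_le_sum_of_subset (Finset.filter_subset _ _)
  have h3 := totalR X τ hτ h4
  have h5 : (S.card : ℝ) ≤ τ ^ 7 := by
    have h6 : (S.card : ℝ) ≤ X := by
      have := Finset.card_le_card (Finset.filter_subset (fun p : ℕ => p.Prime ∧ (p : ZMod 4) = ρ)
        (Finset.range X))
      rw [Finset.card_range] at this
      exact_mod_cast this
    rw [← h4] at h6
    exact h6.trans (pow_le_pow_right₀ hτ (by norm_num))
  have h7 : ((∑ p ∈ S, T p : ℕ) : ℝ) ≤ 16 * τ ^ 7 := le_trans (by exact_mod_cast h2) h3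
  have h9 : ∑ p ∈ S, (T p + e) ≤ ∑ p ∈ S, T p + S.card := by
    rw [Finset.sum_add_distrib, Finset.sum_const, smul_eq_mul]
    have := Nat.mul_le_mul_left S.card he1
    omega
  have h8' : S.card ^ 2 ≤ 2 * k * (∑ p ∈ S, T p + S.card + S.card) :=
    h1.trans (Nat.mul_le_mul_left _ (Nat.add_le_add_right h9 _))
  have h8 : (S.card : ℝ) ^ 2 ≤ 2 * k * (((∑ p ∈ S, T p : ℕ) : ℝ) + S.card + S.card) := by
    exact_mod_cast h8'
  have hkr : (0 : ℝ) ≤ k := by positivity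
  calc (S.card : ℝ) ^ 2 ≤ 2 * k * (((∑ p ∈ S, T p : ℕ) : ℝ) + S.card + S.card) := h8
    _ ≤ 2 * k * (16 * τ ^ 7 + τ ^ 7 + τ ^ 7) := by
        refine mul_le_mul_of_nonneg_left ?_ (by positivity)
        linarith
    _ = 36 * k * τ ^ 7 := by ring

theorem unbounded (ρ : ZMod 4) (hunit : IsUnit ρ) (e : ℕ) (he1 : e ≤ 1)
    (hev : ∀ p : ℕ, p.Prime → (p : ZMod 4) = ρ → Even (T p + e))
    (k : ℕ) (hk1 : 1 ≤ k) (hk : ∀ i, 1 ≤ i → ∀ N, W (2 * i - e) N ≤ k) : False := by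
  classical
  have hinf := Nat.infinite_setOfPred_prime_and_eq_mod (q := 4) (a := ρ) hunit
  refine ArithmeticFunction.vonMangoldt.not_summable_residueClass_prime_div (q := 4) (a := ρ)
    hunit ?_
  set R : ℕ → Prop := fun p : ℕ => p.Prime ∧ (p : ZMod 4) = ρ with hR
  have hinf' : (setOf R).Infinite := hinf
  set g : ℕ → ℕ := Nat.nth R with hg
  have hgR : ∀ N, R (g N) := fun N => Nat.nth_mem_of_infinite hinf' N
  have hinj : Function.Injective g := Nat.nth_injective hinf'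
  rw [← hinj.summable_iff]
  swap
  · intro n hn
    have hnR : ¬ R n := by
      intro h
      apply hn
      rw [hg, Nat.range_nth_of_infinite hinf']
      exact h
    by_cases hp : n.Prime
    · have : (n : ZMod 4) ≠ ρ := fun h => hnR ⟨hp, h⟩
      rw [if_pos hp, ArithmeticFunction.vonMangoldt.residueClass, Set.indicator_of_notMem, zero_div]
      exact this
    · rw [if_neg hp, zero_div]
  set A : ℝ := 36 * k with hA
  have hA0 : 0 < A := by
    have : (0 : ℝ) < k := by exact_mod_cast hk1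
    positivity
  have hval : ∀ N, ((fun n : ℕ => (if n.Prime then
      ArithmeticFunction.vonMangoldt.residueClass ρ n else 0) / (n : ℝ)) ∘ g) N =
      Real.log (g N) / (g N : ℝ) := by
    intro N
    have h1 := hgR N
    simp only [Function.comp]
    rw [if_pos h1.1, ArithmeticFunction.vonMangoldt.residueClass, Set.indicator_of_mem,
      ArithmeticFunction.vonMangoldt_apply_prime h1.1]
    exact h1.2
  have hb : ∀ N, Real.log (g N) / (g N : ℝ) ≤
      (32 * (1 / A) ^ (-(15 / 28) : ℝ)) * (((N + 1 : ℕ) : ℝ)) ^ (-(15 / 14) : ℝ) := by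
    intro N
    have h1 := hgR N
    have hg2 : 2 ≤ g N := h1.1.two_le
    have hgr : (2 : ℝ) ≤ g N := by exact_mod_cast hg2
    set τ : ℝ := ((g N + 1 : ℕ) : ℝ) ^ ((1 : ℝ) / 4) with hτ
    have hX1 : (1 : ℝ) ≤ ((g N + 1 : ℕ) : ℝ) := by push_cast; linarith
    have hτ1 : 1 ≤ τ := Real.one_le_rpow hX1 (by norm_num)
    have hτ0 : 0 < τ := by linarith
    have hτ4 : τ ^ 4 = ((g N + 1 : ℕ) : ℝ) := by
      rw [hτ, ← Real.rpow_natCast, ← Real.rpow_mul (by positivity)]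
      norm_num
    have h2 := key ρ e he1 hev k hk1 hk (g N + 1) τ hτ1 hτ4
    have h3 : Nat.count R (g N + 1) = N + 1 := Nat.count_nth_succ_of_infinite hinf' N
    have h2' : (((N + 1 : ℕ) : ℝ)) ^ 2 ≤ A * τ ^ 7 := by
      rw [← h3]
      exact h2
    have h4 : (((N + 1 : ℕ) : ℝ)) ^ 2 * (1 / A) ≤ τ ^ 7 := by
      rw [mul_one_div, div_le_iff₀ hA0]
      linarith
    have hN1 : (0 : ℝ) < ((N + 1 : ℕ) : ℝ) := by positivity
    have h5 : (τ ^ 7) ^ (-(15 / 28) : ℝ) ≤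
        ((((N + 1 : ℕ) : ℝ)) ^ 2 * (1 / A)) ^ (-(15 / 28) : ℝ) :=
      Real.rpow_le_rpow_of_nonpos (by positivity) h4 (by norm_num)
    have h6 : (τ ^ 7) ^ (-(15 / 28) : ℝ) = τ ^ (-(15 / 4) : ℝ) := by
      rw [← Real.rpow_natCast τ 7, ← Real.rpow_mul hτ0.le]
      norm_num
    have h7 : ((((N + 1 : ℕ) : ℝ)) ^ 2 * (1 / A)) ^ (-(15 / 28) : ℝ) =
        (((N + 1 : ℕ) : ℝ)) ^ (-(15 / 14) : ℝ) * (1 / A) ^ (-(15 / 28) : ℝ) := by
      rw [Real.mul_rpow (by positivity) (by positivity), ← Real.rpow_natCast _ 2,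
        ← Real.rpow_mul hN1.le]
      norm_num
    have h8 : Real.log (g N) ≤ 16 * τ ^ ((1 : ℝ) / 4) := by
      have h9 : Real.log (g N) ≤ Real.log (((g N + 1 : ℕ) : ℝ)) :=
        Real.log_le_log (by linarith) (by push_cast; linarith)
      rw [← hτ4, Real.log_pow] at h9
      have h10 := Real.log_le_rpow_div hτ0.le (show (0 : ℝ) < 1 / 4 by norm_num)
      push_cast at h9
      linarith
    have h11 : (1 : ℝ) / g N ≤ 2 * τ ^ (-4 : ℝ) := by
      have h12 : τ ^ (-4 : ℝ) = 1 / (((g N + 1 : ℕ) : ℝ)) := by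
        rw [← hτ4, Real.rpow_neg hτ0.le, one_div]
        congr 1
        exact_mod_cast Real.rpow_natCast τ 4
      rw [h12, mul_one_div, div_le_div_iff₀ (by linarith) (by positivity)]
      push_cast
      linarith
    calc Real.log (g N) / (g N : ℝ) = Real.log (g N) * (1 / (g N : ℝ)) := by ring
      _ ≤ (16 * τ ^ ((1 : ℝ) / 4)) * (2 * τ ^ (-4 : ℝ)) :=
          mul_le_mul h8 h11 (by positivity) (by positivity)
      _ = 32 * (τ ^ ((1 : ℝ) / 4) * τ ^ (-4 : ℝ)) := by ring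
      _ = 32 * τ ^ (-(15 / 4) : ℝ) := by
          rw [← Real.rpow_add hτ0]
          norm_num
      _ ≤ 32 * ((((N + 1 : ℕ) : ℝ)) ^ (-(15 / 14) : ℝ) * (1 / A) ^ (-(15 / 28) : ℝ)) := by
          rw [← h6, ← h7]
          linarith
      _ = _ := by ring
  refine Summable.of_nonneg_of_le ?_ (fun N => ?_) (Summable.mul_left
    (32 * (1 / A) ^ (-(15 / 28) : ℝ)) ((summable_nat_add_iff 1).2
      (Real.summable_nat_rpow.2 (show (-(15 / 14) : ℝ) < -1 by norm_num))))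
  · intro N
    rw [hval]
    have h1 := (hgR N).1.one_le
    have : 0 ≤ Real.log (g N) := Real.log_nonneg (by exact_mod_cast h1)
    positivity
  · rw [hval]
    exact hb N

theorem not_bounded (ρ : ZMod 4) (hunit : IsUnit ρ) (e : ℕ) (he1 : e ≤ 1)
    (hev : ∀ p : ℕ, p.Prime → (p : ZMod 4) = ρ → Even (T p + e)) (h : ∀ i : ℕ, 1 ≤ i →
    Tendsto (fun N : ℕ => (W (2 * i + 2 - e) N : ℝ) / (W (2 * i - e) N : ℝ)) atTop (𝓝 1)) :
    ∀ i, 1 ≤ i → ∀ k : ℕ, ¬ ∀ N, W (2 * i - e) N ≤ k := by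
  intro i hi
  induction i, hi using Nat.le_induction with
  | base =>
    intro k hk
    refine unbounded ρ hunit e he1 hev (k + 1) (by omega) ?_
    intro i hi N
    exact (classes e he1 h k hk i hi N).trans (by omega)
  | succ i hi ih =>
    intro k hk
    have h1 : ∀ᶠ N in atTop, (W (2 * i + 2 - e) N : ℝ) / (W (2 * i - e) N : ℝ) ∈
        Set.Ioi (1 / 2 : ℝ) := (h i hi).eventually (Ioi_mem_nhds (by norm_num))
    obtain ⟨N0, hN0⟩ := eventually_atTop.1 h1
    refine ih (2 * k) ?_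
    intro N
    have h2 : (1 / 2 : ℝ) < (W (2 * i + 2 - e) (max N N0) : ℝ) / (W (2 * i - e) (max N N0) : ℝ) :=
      hN0 (max N N0) (le_max_right _ _)
    refine (W_mono (2 * i - e) (le_max_left N N0)).trans ?_
    have h4 : W (2 * i + 2 - e) (max N N0) ≤ k := hk (max N N0)
    generalize W (2 * i + 2 - e) (max N N0) = a at *
    generalize W (2 * i - e) (max N N0) = b at *
    rcases Nat.eq_zero_or_pos b with hb | hb
    · omega
    · have hbr : (0 : ℝ) < b := by exact_mod_cast hb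
      rw [lt_div_iff₀ hbr] at h2
      have h5 : (b : ℝ) < 2 * a := by linarith
      have h6 : b < 2 * a := by exact_mod_cast h5
      omega

theorem W_le_of_finite (i : ℕ) (h : {p : ℕ | p.Prime ∧ T p = i}.Finite) :
    ∃ k : ℕ, ∀ N, W i N ≤ k := by
  classical
  refine ⟨h.toFinset.card, fun N => ?_⟩
  unfold W
  refine Finset.card_le_card_of_injOn (fun m => Nat.nth Nat.Prime m) ?_ ?_
  · intro m hm
    have hm' := (Finset.mem_filter.1 hm).2
    rw [Set.Finite.coe_toFinset]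
    exact ⟨Nat.prime_nth_prime m, hm'⟩
  · intro m _ m' _ he
    exact Nat.nth_injective Nat.infinite_setOfPred_prime he

theorem one_of (p : ℕ) (hp : p.Prime) (h : T p = 1) : ∃ n : ℕ, p = n ^ 2 + 1 := by
  have hirr : Irrational (√(p : ℝ)) := hp.irrational_sqrt
  have hs : (√(p : ℝ)) ^ 2 = p := Real.sq_sqrt (by positivity)
  obtain ⟨a, c, ha, hc, hac, has, has1, hcs, hx1, -⟩ := init p hp
  have hper := per_cq _ hirr 1 (T_mem p 1 le_rfl h)
  have hc1 : (1 : ℝ) ≤ c := by exact_mod_cast hc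
  obtain ⟨P2, Q2, hP2, hQ2, hQ2p, b1, b2, b3, b4, hx2⟩ := step p _ hs a c 1 hc hac has
    (by linarith) hcs _ hx1 (irr_cq _ hirr 1)
  have hx2' : cq (√(p : ℝ)) (1 + 1) = (P2 + √(p : ℝ)) / Q2 := hx2
  rw [hper, hx1] at hx2'
  obtain ⟨e1, e2⟩ := pair_eq _ hirr a c P2 Q2 hc hQ2p hx2'
  subst e1 e2
  have hc1' : c = 1 := by
    have : c * c = 1 * c := by rw [hQ2]; linarith
    exact mul_right_cancel₀ hc.ne' this
  subst hc1'
  obtain ⟨n, hn⟩ : ∃ n : ℕ, a = n := ⟨a.toNat, (Int.toNat_of_nonneg ha.le).symm⟩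
  refine ⟨n, ?_⟩
  subst hn
  zify
  linarith

theorem main (h : ∀ i : ℕ, 1 ≤ i →
    Tendsto (fun N : ℕ => (W (2 * i + 2) N : ℝ) / (W (2 * i) N : ℝ)) atTop (𝓝 1) ∧
    Tendsto (fun N : ℕ => (W (2 * i + 1) N : ℝ) / (W (2 * i - 1) N : ℝ)) atTop (𝓝 1)) :
    (∀ i, 1 ≤ i → {p : ℕ | p.Prime ∧ T p = i}.Infinite) ∧
    {n : ℕ | (n ^ 2 + 1).Prime}.Infinite ∧ {n : ℕ | (n ^ 2 + 2).Prime}.Infinite ∧
    {n : ℕ | (n ^ 2 - 2).Prime}.Infinite := by
  have hev0 : ∀ p : ℕ, p.Prime → (p : ZMod 4) = 3 → Even (T p + 0) := by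
    intro p hp h3
    refine T_even p hp ?_
    have h3' : ((3 : ℕ) : ZMod 4) = 3 := rfl
    rw [← h3', ZMod.natCast_eq_natCast_iff'] at h3
    exact h3
  have hev1 : ∀ p : ℕ, p.Prime → (p : ZMod 4) = 1 → Even (T p + 1) := by
    intro p hp h3
    refine Odd.add_one (T_odd p hp ?_)
    have h3' : ((1 : ℕ) : ZMod 4) = 1 := rfl
    rw [← h3', ZMod.natCast_eq_natCast_iff'] at h3
    exact h3
  have h1 : ∀ i, 1 ≤ i → {p : ℕ | p.Prime ∧ T p = i}.Infinite := by
    intro i hi hfin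
    obtain ⟨k, hk⟩ := W_le_of_finite i hfin
    rcases Nat.even_or_odd i with ⟨j, hj⟩ | ⟨j, hj⟩
    · refine not_bounded 3 (by decide) 0 (by omega) hev0 (fun i hi => (h i hi).1) j (by omega) k ?_
      intro N
      rw [show 2 * j - 0 = i by omega]
      exact hk N
    · refine not_bounded 1 (by decide) 1 (by omega) hev1 (fun i hi => (h i hi).2) (j + 1)
        (by omega) k ?_
      intro N
      rw [show 2 * (j + 1) - 1 = i by omega]
      exact hk N
  refine ⟨h1, ?_, ?_, ?_⟩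
  · intro hfin
    refine h1 1 le_rfl ((hfin.image (fun n => n ^ 2 + 1)).subset ?_)
    rintro p ⟨hp, hT⟩
    obtain ⟨n, hpn⟩ := one_of p hp hT
    refine ⟨n, ?_, hpn.symm⟩
    show (n ^ 2 + 1).Prime
    rw [← hpn]
    exact hp
  · intro hfin
    refine h1 2 (by norm_num) ((hfin.image (fun n => n ^ 2 + 2)).subset ?_)
    rintro p ⟨hp, hT⟩
    obtain ⟨n, hn, hpn⟩ := two_of p hp hT
    refine ⟨n, ?_, hpn.symm⟩
    show (n ^ 2 + 2).Prime
    rw [← hpn]
    exact hp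
  · intro hfin
    refine h1 4 (by norm_num) ((hfin.image (fun n => n ^ 2 - 2)).subset ?_)
    rintro p ⟨hp, hT⟩
    obtain ⟨n, hn, hpn⟩ := four_of p hp hT
    have hpn' : n ^ 2 - 2 = p := by omega
    refine ⟨n, ?_, hpn'⟩
    show (n ^ 2 - 2).Prime
    rw [hpn']
    exact hp

end Pool.Agent.H83.CF
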