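import Pool.Agent.H83.CF.Base
set_option autoImplicit false
open Filter Topology
namespace Pool.Agent.H83.CF

/-- the sequences P_k, Q_k -/
theorem seqs (p : ℕ) (hp : p.Prime) : ∃ P Q : ℕ → ℤ, (∀ k, 0 < Q k) ∧
    (∀ k, (P k : ℝ) < √(p : ℝ)) ∧ (∀ k, √(p : ℝ) - P k < Q k) ∧ (∀ k, 0 < P k) ∧
    (∀ k, cq (√(p : ℝ)) (k + 1) = (P k + √(p : ℝ)) / Q k) ∧
    (∀ k, Q k * Q (k + 1) = p - P (k + 1) ^ 2) ∧
    (∀ k, √(p : ℝ) - P (k + 1) < Q k) ∧
    (∀ k, ∃ f : ℤ, P (k + 1) = f * Q k - P k) ∧ (Q 0 = p - P 0 ^ 2) ∧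
    (√(p : ℝ) - P 0 < 1) ∧
    ∀ k, ∃ A B : ℤ, A ^ 2 - p * B ^ 2 = (-1) ^ (k + 1) * Q k := by
  have hirr : Irrational (√(p : ℝ)) := hp.irrational_sqrt
  have hs : (√(p : ℝ)) ^ 2 = p := Real.sq_sqrt (by positivity)
  have hst := fun k => state p hp k
  choose P Q Q0 hQ hd h1 h2 h3 h4 hx A B A' B' e1 e2 e3 using hst
  have hstep : ∀ k, Q k * Q (k + 1) = p - P (k + 1) ^ 2 ∧ √(p : ℝ) - P (k + 1) < Q k ∧
      P (k + 1) = ⌊cq (√(p : ℝ)) (k + 1)⌋ * Q k - P k := by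
    intro k
    obtain ⟨P', Q', hP', hQ', hQ'p, b1, b2, b3, b4, hx'⟩ := step p _ hs (P k) (Q k) (Q0 k) (hQ k)
      (hd k) (h1 k) (h2 k) (h3 k) _ (hx k) (irr_cq _ hirr (k + 1))
    have hx2 : cq (√(p : ℝ)) (k + 1 + 1) = (P' + √(p : ℝ)) / Q' := hx'
    rw [hx (k + 1)] at hx2
    obtain ⟨g1, g2⟩ := pair_eq _ hirr (P (k + 1)) (Q (k + 1)) P' Q' (hQ (k + 1)) hQ'p hx2
    rw [g1, g2]
    exact ⟨hQ', b2, hP'⟩
  obtain ⟨a, c, ha, hc, hac, has, has1, hcs, hx1, -⟩ := init p hp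
  have h0 := hx 0
  rw [zero_add, hx1] at h0
  obtain ⟨g1, g2⟩ := pair_eq _ hirr a c (P 0) (Q 0) hc (hQ 0) h0
  refine ⟨P, Q, hQ, h1, h2, ?_, hx, fun k => (hstep k).1, fun k => (hstep k).2.1,
    fun k => ⟨_, (hstep k).2.2⟩, ?_, ?_, fun k => ⟨A k, B k, e1 k⟩⟩
  · intro k
    have : (0 : ℝ) < P k := by
      have := h2 k
      have := h3 k
      linarith
    exact_mod_cast this
  · rw [← g1, ← g2]; linarith
  · rw [← g2]; exact has1

theorem uniq (s : ℝ) (P R Q f g c : ℤ) (hQ : 0 < Q) (h1 : (P : ℝ) < s) (h2 : s - P < Q)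
    (k1 : (R : ℝ) < s) (k2 : s - R < Q) (hP : P = f * Q - c) (hR : R = g * Q - c) : P = R := by
  have m1 : P - R = (f - g) * Q := by rw [hP, hR]; ring
  have m2 : ((P - R : ℤ) : ℝ) < Q := by push_cast; linarith
  have m3 : -(Q : ℝ) < ((P - R : ℤ) : ℝ) := by push_cast; linarith
  have m2' : P - R < Q := by exact_mod_cast m2
  have m3' : -Q < P - R := by exact_mod_cast m3
  rw [m1] at m2' m3'
  have m4 : f - g < 1 := by nlinarith
  have m5 : -1 < f - g := by nlinarith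
  have m6 : f - g = 0 := by omega
  rw [m6, zero_mul] at m1
  linarith

theorem T_odd (p : ℕ) (hp : p.Prime) (h4 : p % 4 = 1) : Odd (T p) := by
  by_contra hev
  rw [Nat.not_odd_iff_even] at hev
  obtain ⟨m, hm⟩ := hev
  have hT1 := T_pos p hp
  have hm1 : 1 ≤ m := by omega
  have hirr : Irrational (√(p : ℝ)) := hp.irrational_sqrt
  have hs : (√(p : ℝ)) ^ 2 = p := Real.sq_sqrt (by positivity)
  have hs0 : 0 < √(p : ℝ) := Real.sqrt_pos.2 (by exact_mod_cast hp.pos)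
  have hper := per_cq _ hirr (T p) (T_mem p (T p) (T_pos p hp) rfl)
  obtain ⟨P, Q, hQ, h1, h2, hP0, hx, hQQ, h2', hf, hQ0, h01, hAB⟩ := seqs p hp
  -- x_{T+1} = x_1
  have hTT : T p = (T p - 1) + 1 := by omega
  have hxT := hx (T p)
  rw [show T p + 1 = 1 + T p by ring, hper] at hxT
  have hx0 := hx 0
  rw [zero_add] at hx0
  rw [hx0] at hxT
  obtain ⟨g1, g2⟩ := pair_eq _ hirr (P 0) (Q 0) (P (T p)) (Q (T p)) (hQ 0) (hQ _) hxT
  set t := T p - 1 with ht
  -- Q t = 1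
  have hQt : Q t = 1 := by
    have h := hQQ t
    rw [← hTT, ← g1, ← g2] at h
    have : Q t * Q 0 = 1 * Q 0 := by rw [h, one_mul, hQ0]
    exact mul_right_cancel₀ (hQ 0).ne' this
  have hPt : P t = P 0 := int_close (P t) (P 0) _ (h1 t) (by
    have := h2 t
    rw [hQt] at this
    exact_mod_cast this) (h1 0) h01
  -- symmetry: P (t - j) = P j, Q (t - j - 1) = Q j  (j < t)
  have hsym : ∀ j, j + 1 ≤ t → P (t - j) = P j ∧ Q (t - j - 1) = Q j := by
    intro j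
    induction j with
    | zero =>
      intro hj
      refine ⟨by simpa using hPt, ?_⟩
      obtain ⟨u, hu⟩ : ∃ u, t = u + 1 := ⟨t - 1, by omega⟩
      have h := hQQ u
      rw [← hu, hQt, hPt, mul_one] at h
      rw [show t - 0 - 1 = u by omega, h, hQ0]
    | succ j ih =>
      intro hj
      obtain ⟨i1, i2⟩ := ih (by omega)
      obtain ⟨u, hu⟩ : ∃ u, t = u + j + 2 := ⟨t - j - 2, by omega⟩
      rw [show t - j = u + 2 by omega] at i1
      rw [show t - j - 1 = u + 1 by omega] at i2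
      rw [show t - (j + 1) = u + 1 by omega, show u + 1 - 1 = u by omega]
      obtain ⟨f, hf1⟩ := hf (u + 1)
      obtain ⟨g, hg1⟩ := hf j
      have hPe : P (u + 1) = P (j + 1) := by
        refine uniq _ (P (u + 1)) (P (j + 1)) (Q j) f g (P j) (hQ j) (h1 _) ?_ (h1 _) (h2' j)
          ?_ hg1
        · rw [← i2]; exact h2 (u + 1)
        · rw [← i2, ← i1, show u + 2 = u + 1 + 1 by ring]
          linarith
      refine ⟨hPe, ?_⟩
      have e1 := hQQ u
      have e2 := hQQ j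
      rw [hPe, ← e2, i2, mul_comm (Q j)] at e1
      exact mul_right_cancel₀ (hQ j).ne' e1
  -- the middle
  obtain ⟨n, hn⟩ : ∃ n, m = n + 1 := ⟨m - 1, by omega⟩
  have hmid : P (n + 1) = P n := by
    rcases Nat.eq_zero_or_pos n with h0 | h0
    · subst h0
      have : t = 0 + 1 := by omega
      rw [← this]
      exact hPt
    · have h := (hsym n (by omega)).1
      rw [show t - n = n + 1 by omega] at h
      exact h
  obtain ⟨f, hf1⟩ := hf n
  rw [hmid] at hf1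
  have hcop := cop p hp _ hs hs0 (P n) (Q (n + 1)) (Q n) (hP0 n) (h1 n) (by
    have := hQQ n
    rw [hmid] at this
    linarith)
  have hdvd : Q n ∣ 2 * P n := ⟨f, by linarith⟩
  have hd2 : Q n ∣ 2 := hcop.dvd_of_dvd_mul_right hdvd
  have hle := Int.le_of_dvd (by norm_num) hd2
  have hQn := hQ n
  rcases (show Q n = 1 ∨ Q n = 2 by omega) with h3 | h3
  · -- shorter period
    have hPn : P n = P 0 := int_close (P n) (P 0) _ (h1 n) (by
      have := h2 n
      rw [h3] at this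
      exact_mod_cast this) (h1 0) h01
    have hQn1 : Q (n + 1) = Q 0 := by
      have := hQQ n
      rw [h3, hmid, hPn, one_mul] at this
      rw [this, hQ0]
    have hTle := T_le p (n + 1) (by omega) (by
      rw [show 1 + (n + 1) = (n + 1) + 1 by ring, hx (n + 1), hx0, hmid, hPn, hQn1])
    omega
  · obtain ⟨A, B, hA⟩ := hAB n
    rw [h3] at hA
    have hz : ((A ^ 2 - p * B ^ 2 : ℤ) : ZMod 4) = (((-1) ^ (n + 1) * 2 : ℤ) : ZMod 4) := by rw [hA]
    push_cast at hz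
    have hp4 : (p : ZMod 4) = 1 := by
      have : ((p % 4 : ℕ) : ZMod 4) = (p : ZMod 4) := ZMod.natCast_mod p 4
      rw [← this, h4]
      rfl
    rw [hp4, one_mul] at hz
    have key : ∀ x y : ZMod 4, x ^ 2 - y ^ 2 ≠ 2 ∧ x ^ 2 - y ^ 2 ≠ -2 := by decide
    rcases neg_one_pow_eq_or (ZMod 4) (n + 1) with h5 | h5
    · rw [h5, one_mul] at hz
      exact (key _ _).1 hz
    · rw [h5, neg_one_mul] at hz
      exact (key _ _).2 hz

end Pool.Agent.H83.CF
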